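import Pool.Agent.Helper27.EX.RDefs

set_option autoImplicit false

open Finset
open scoped Classical

namespace OT

noncomputable section

/-! ### ST : stars -/

theorem st_adj_swap {V : Type} (D : V → V → Prop) (s : Bool) (u y : V) :
    Adj D s u y ↔ Adj D (!s) y u := by
  cases s <;> simp [Adj]

theorem st_extend (d : ℕ) {V : Type} [Fintype V] (D : V → V → Prop)
    (irr : ∀ v, ¬ D v v) (s : Bool) (X Y S : Finset V) (lv : V → Fin d → V)
    (hSX : S ⊆ X) (hst : Stars D s d S Y lv) (Z : Finset V)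
    (hZ : Z = S ∪ (S ×ˢ (univ : Finset (Fin d))).image (fun p => lv p.1 p.2))
    (u : V) (hu : u ∈ X) (huZ : u ∉ Z) (hd : d ≤ ((Y \ Z) ∩ adjN D s u).card) :
    ∃ (S' : Finset V) (lv' : V → Fin d → V), S' ⊆ X ∧ Stars D s d S' Y lv' ∧ S.card < S'.card := by
  obtain ⟨T, hT, hTc⟩ := Finset.exists_subset_card_eq hd
  have e : Fin d ≃ T := (Finset.equivFinOfCardEq hTc).symm
  have huS : u ∉ S := fun h => huZ (by rw [hZ]; exact mem_union_left _ h)
  have hlvZ : ∀ w ∈ S, ∀ j, lv w j ∈ Z := by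
    intro w hw j
    rw [hZ]
    exact mem_union_right _ (mem_image.2 ⟨(w, j), by simp [hw], rfl⟩)
  have hT' : ∀ j, (e j : V) ∈ (Y \ Z) ∩ adjN D s u := fun j => hT (e j).2
  have hTZ : ∀ j, (e j : V) ∉ Z := fun j => (mem_sdiff.1 (mem_inter.1 (hT' j)).1).2
  have hTY : ∀ j, (e j : V) ∈ Y := fun j => (mem_sdiff.1 (mem_inter.1 (hT' j)).1).1
  have hTA : ∀ j, Adj D s u (e j : V) := by
    intro j
    have := (mem_inter.1 (hT' j)).2
    simpa [adjN] using this
  refine ⟨insert u S, fun w j => if w = u then (e j : V) else lv w j, ?_, ⟨?_, ?_⟩, ?_⟩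
  · intro w hw
    rcases mem_insert.1 hw with rfl | hw
    · exact hu
    · exact hSX hw
  · intro w hw j
    by_cases hwu : w = u
    · subst hwu
      simp only [if_true]
      refine ⟨hTY j, hTA j, ?_⟩
      intro h
      rcases mem_insert.1 h with h | h
      · have := hTA j
        rw [h] at this
        apply irr w
        cases s <;> simpa [Adj] using this
      · exact hTZ j (by rw [hZ]; exact mem_union_left _ h)
    · have hwS : w ∈ S := by
        rcases mem_insert.1 hw with h | h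
        · exact absurd h hwu
        · exact h
      simp only [if_neg hwu]
      obtain ⟨h1, h2, h3⟩ := hst.adj w hwS j
      refine ⟨h1, h2, ?_⟩
      intro h
      rcases mem_insert.1 h with h | h
      · exact huZ (h ▸ hlvZ w hwS j)
      · exact h3 h
  · intro w hw w' hw' j j' h
    have hmem : ∀ w, w ∈ insert u S → w ≠ u → w ∈ S := by
      intro w hw hne
      rcases mem_insert.1 hw with h | h
      · exact absurd h hne
      · exact h
    by_cases hwu : w = u <;> by_cases hwu' : w' = u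
    · simp only [hwu, hwu', if_true] at h
      refine ⟨by rw [hwu, hwu'], ?_⟩
      exact e.injective (Subtype.ext h)
    · exfalso
      simp only [hwu, if_true, if_neg hwu'] at h
      exact hTZ j (h ▸ hlvZ w' (hmem w' hw' hwu') j')
    · exfalso
      simp only [hwu', if_true, if_neg hwu] at h
      exact hTZ j' (h ▸ hlvZ w (hmem w hw hwu) j)
    · simp only [if_neg hwu, if_neg hwu'] at h
      exact hst.inj w (hmem w hw hwu) w' (hmem w' hw' hwu') j j' h
  · rw [card_insert_of_notMem huS]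
    omega

theorem stars (d : ℕ) (y₀ : ℝ) (hy : 0 < y₀) {V : Type} [Fintype V] (D : V → V → Prop)
    (irr : ∀ v, ¬ D v v) (s : Bool) (X Y : Finset V) (Λ β : ℝ) (hβ : 0 < β)
    (hY : y₀ * (Fintype.card V : ℝ) ≤ (Y.card : ℝ)) (hΛ : 4 * d ≤ y₀ * Λ)
    (hin : ∀ y ∈ Y, Λ ≤ ((X ∩ adjN D (!s) y).card : ℝ))
    (hout : ∀ u ∈ X, ((Y ∩ adjN D s u).card : ℝ) ≤ β * (Fintype.card V : ℝ))
    (hV : 0 < Fintype.card V) :
    ∃ (S : Finset V) (lv : V → Fin d → V), S ⊆ X ∧ Stars D s d S Y lv ∧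
      (y₀ * Λ ≤ 4 * (d + 1) * β * (S.card : ℝ) ∨
        y₀ * (Fintype.card V : ℝ) ≤ 2 * (d + 1) * (S.card : ℝ)) := by
  obtain ⟨S, hS, hmax⟩ := Finset.exists_max_image
    (X.powerset.filter fun S => ∃ lv : V → Fin d → V, Stars D s d S Y lv) Finset.card
    ⟨∅, by
      refine mem_filter.2 ⟨by simp, fun v _ => v, ?_, ?_⟩
      · intro u hu; simp at hu
      · intro u hu; simp at hu⟩
  obtain ⟨hSX, lv, hst⟩ := mem_filter.1 hS
  rw [mem_powerset] at hSX
  refine ⟨S, lv, hSX, hst, ?_⟩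
  set Z := S ∪ (S ×ˢ (univ : Finset (Fin d))).image (fun p => lv p.1 p.2) with hZ
  have hZc : Z.card ≤ (d + 1) * S.card := by
    calc Z.card ≤ S.card + ((S ×ˢ (univ : Finset (Fin d))).image (fun p => lv p.1 p.2)).card :=
          card_union_le _ _
      _ ≤ S.card + (S ×ˢ (univ : Finset (Fin d))).card := by
          gcongr; exact card_image_le
      _ = (d + 1) * S.card := by
          rw [card_product, card_univ, Fintype.card_fin]; ring
  have hZc' : (Z.card : ℝ) ≤ (d + 1) * (S.card : ℝ) := by exact_mod_cast hZc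
  by_cases hcase : y₀ * (Fintype.card V : ℝ) ≤ 2 * (Z.card : ℝ)
  · right
    linarith
  left
  push Not at hcase
  have hn : (0 : ℝ) < (Fintype.card V : ℝ) := by exact_mod_cast hV
  have hYZ : y₀ * (Fintype.card V : ℝ) / 2 ≤ ((Y \ Z).card : ℝ) := by
    have h1 : (Y.card : ℝ) ≤ ((Y \ Z).card : ℝ) + (Z.card : ℝ) := by
      have h2 : Y.card ≤ (Y \ Z).card + Z.card := by
        have := card_le_card (show Y ⊆ (Y \ Z) ∪ Z by
          intro y hy; by_cases h : y ∈ Z <;> simp [h, hy])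
        exact this.trans (card_union_le _ _)
      exact_mod_cast h2
    linarith
  have hsmall : ∀ u ∈ X \ Z, (((Y \ Z) ∩ adjN D s u).card : ℝ) ≤ d := by
    intro u hu
    rw [mem_sdiff] at hu
    by_contra hcon
    push Not at hcon
    have hd : d ≤ ((Y \ Z) ∩ adjN D s u).card := by
      have : d < ((Y \ Z) ∩ adjN D s u).card := by exact_mod_cast hcon
      exact this.le
    obtain ⟨S', lv', h1, h2, h3⟩ := st_extend d D irr s X Y S lv hSX hst Z hZ u hu.1 hu.2 hd
    have := hmax S' (mem_filter.2 ⟨mem_powerset.2 h1, lv', h2⟩)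
    omega
  have hΛ0 : 0 ≤ Λ := by
    by_contra h
    push Not at h
    have h1 : y₀ * Λ < 0 := mul_neg_of_pos_of_neg hy h
    have h2 : (0 : ℝ) ≤ d := Nat.cast_nonneg d
    linarith
  -- double counting
  have hdc : ∑ y ∈ Y \ Z, (X ∩ adjN D (!s) y).card = ∑ u ∈ X, ((Y \ Z) ∩ adjN D s u).card := by
    have h1 : ∀ y, (X ∩ adjN D (!s) y) = X.filter (fun u => Adj D s u y) := by
      intro y
      ext u
      simp only [mem_inter, adjN, mem_filter, mem_univ, true_and]
      rw [st_adj_swap D s u y]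
    have h2 : ∀ u, ((Y \ Z) ∩ adjN D s u) = (Y \ Z).filter (fun y => Adj D s u y) := by
      intro u
      ext y
      simp only [mem_inter, adjN, mem_filter, mem_univ, true_and]
    simp_rw [h1, h2, card_filter]
    rw [sum_comm]
  have hlow : y₀ * (Fintype.card V : ℝ) / 2 * Λ ≤ ∑ y ∈ Y \ Z, ((X ∩ adjN D (!s) y).card : ℝ) := by
    calc y₀ * (Fintype.card V : ℝ) / 2 * Λ ≤ ((Y \ Z).card : ℝ) * Λ :=
          mul_le_mul_of_nonneg_right hYZ hΛ0
      _ = ∑ y ∈ Y \ Z, Λ := by rw [sum_const, nsmul_eq_mul]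
      _ ≤ _ := sum_le_sum fun y hy => hin y (mem_sdiff.1 hy).1
  have hup : ∑ u ∈ X, (((Y \ Z) ∩ adjN D s u).card : ℝ) ≤
      (Z.card : ℝ) * (β * (Fintype.card V : ℝ)) + (Fintype.card V : ℝ) * d := by
    have hsplit : ∑ u ∈ X, (((Y \ Z) ∩ adjN D s u).card : ℝ) =
        ∑ u ∈ X ∩ Z, (((Y \ Z) ∩ adjN D s u).card : ℝ) +
        ∑ u ∈ X \ Z, (((Y \ Z) ∩ adjN D s u).card : ℝ) := by
      rw [← sum_union (disjoint_left.2 fun x hx hx' =>
        (mem_sdiff.1 hx').2 (mem_inter.1 hx).2)]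
      congr 1
      ext x
      by_cases h : x ∈ Z <;> simp [h]
    rw [hsplit]
    have hA : ∑ u ∈ X ∩ Z, (((Y \ Z) ∩ adjN D s u).card : ℝ) ≤
        (Z.card : ℝ) * (β * (Fintype.card V : ℝ)) := by
      calc ∑ u ∈ X ∩ Z, (((Y \ Z) ∩ adjN D s u).card : ℝ)
          ≤ ∑ u ∈ X ∩ Z, β * (Fintype.card V : ℝ) := by
            apply sum_le_sum
            intro u hu
            refine le_trans ?_ (hout u (mem_inter.1 hu).1)
            exact_mod_cast card_le_card (inter_subset_inter_right sdiff_subset)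
        _ = ((X ∩ Z).card : ℝ) * (β * (Fintype.card V : ℝ)) := by
            rw [sum_const, nsmul_eq_mul]
        _ ≤ _ := by
            apply mul_le_mul_of_nonneg_right _ (by positivity)
            exact_mod_cast card_le_card inter_subset_right
    have hB : ∑ u ∈ X \ Z, (((Y \ Z) ∩ adjN D s u).card : ℝ) ≤ (Fintype.card V : ℝ) * d := by
      calc ∑ u ∈ X \ Z, (((Y \ Z) ∩ adjN D s u).card : ℝ) ≤ ∑ u ∈ X \ Z, (d : ℝ) :=
            sum_le_sum hsmall
        _ = ((X \ Z).card : ℝ) * d := by rw [sum_const, nsmul_eq_mul]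
        _ ≤ _ := by
            apply mul_le_mul_of_nonneg_right _ (Nat.cast_nonneg d)
            exact_mod_cast card_le_univ _
    linarith
  have hdc' : ∑ y ∈ Y \ Z, ((X ∩ adjN D (!s) y).card : ℝ) =
      ∑ u ∈ X, (((Y \ Z) ∩ adjN D s u).card : ℝ) := by exact_mod_cast hdc
  rw [hdc'] at hlow
  have hfin := hlow.trans hup
  have h1 : (Z.card : ℝ) * (β * (Fintype.card V : ℝ)) ≤
      (d + 1) * (S.card : ℝ) * (β * (Fintype.card V : ℝ)) :=
    mul_le_mul_of_nonneg_right hZc' (by positivity)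
  have h2 : (Fintype.card V : ℝ) * (4 * d) ≤ (Fintype.card V : ℝ) * (y₀ * Λ) :=
    mul_le_mul_of_nonneg_left hΛ hn.le
  have h3 : (Fintype.card V : ℝ) * (y₀ * Λ) ≤
      (Fintype.card V : ℝ) * (4 * (d + 1) * β * (S.card : ℝ)) := by
    nlinarith [hfin, h1, h2]
  exact le_of_mul_le_mul_left h3 hn

end

end OT
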