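import Pool.Agent.Helper28.EX.ST

set_option autoImplicit false

open Finset
open scoped Classical

namespace OT

noncomputable section

/-! ### HS : the host for trees with many sources -/

theorem hs_split {V : Type} [Fintype V] (A W : Finset V) :
    A.card ≤ (W ∩ A).card + (Fintype.card V - W.card) := by
  have h1 : A ⊆ (W ∩ A) ∪ Wᶜ := by
    intro a ha
    by_cases h : a ∈ W <;> simp [h, ha]
  calc A.card ≤ ((W ∩ A) ∪ Wᶜ).card := card_le_card h1
    _ ≤ (W ∩ A).card + Wᶜ.card := card_union_le _ _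
    _ = _ := by rw [card_compl]

theorem hs_sdiff {V : Type} (A W : Finset V) : (A.card : ℝ) = ((A ∩ W).card : ℝ) + ((A \ W).card : ℝ) := by
  have := card_inter_add_card_sdiff A W
  exact_mod_cast this.symm

theorem hs_inter_sub {V : Type} [Fintype V] (A W R : Finset V) :
    ((A ∩ W).card : ℝ) ≤ (((A \ R) ∩ W).card : ℝ) + (R.card : ℝ) := by
  have h : (A ∩ W).card ≤ ((A \ R) ∩ W).card + R.card := by
    have h1 : A ∩ W ⊆ ((A \ R) ∩ W) ∪ R := by
      intro a ha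
      by_cases h : a ∈ R
      · simp [h]
      · simp only [mem_inter] at ha
        simp [h, ha.1, ha.2]
    exact (card_le_card h1).trans (card_union_le _ _)
  exact_mod_cast h

theorem hs_core (Δ : ℕ) (γ κ κ₀ L : ℝ) (k : ℕ) {V : Type} [Fintype V] (D : V → V → Prop)
    (B₀ C₀ X₀ : Finset V) (hn0 : 0 < Fintype.card V) (hγ0 : 0 < γ)
    (hγ : 96 * ((Δ : ℝ) + 2) * γ ≤ 1) (hκ0 : 0 < κ₀) (hκγ : κ₀ ≤ γ) (hκκ : 2 * κ₀ ≤ κ)
    (hκΔ : 24 * ((Δ : ℝ) + 2) * κ₀ ≤ 1) (hL : 48 * ((Δ : ℝ) + 2) * ((k : ℝ) + 1) ≤ L)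
    (hk : 24 * ((Δ : ℝ) + 2) * (k : ℝ) ≤ (Fintype.card V : ℝ))
    (nb : NearBip D B₀ C₀ κ₀) (sd : SemiDeg D L) (BX : B₀ ⊆ X₀) (CX : Disjoint C₀ X₀)
    (out1 : ∀ u ∈ X₀, (Fintype.card V : ℝ) / 5 ≤ ((C₀ ∩ adjN D true u).card : ℝ))
    (out0 : ∀ u, u ∉ X₀ → (Fintype.card V : ℝ) / 5 ≤ ((B₀ ∩ adjN D true u).card : ℝ))
    (half : Fintype.card V ≤ 2 * X₀.card) :
    ∃ (B C X : Finset V) (τ : Bool) (S S' : Finset V) (lv lv' : V → Fin (Δ + 1) → V),
      HostS D Δ B C X τ S S' lv lv' γ κ k := by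
  have hn : (0 : ℝ) < (Fintype.card V : ℝ) := by exact_mod_cast hn0
  set n : ℝ := (Fintype.card V : ℝ) with hndef
  have hΔ0 : (0 : ℝ) ≤ (Δ : ℝ) := Nat.cast_nonneg Δ
  have hk0 : (0 : ℝ) ≤ (k : ℝ) := Nat.cast_nonneg k
  have hγs : γ ≤ 1 / 192 := by nlinarith
  have hκs : κ₀ ≤ 1 / 192 := hκγ.trans hγs
  have hL0 : 0 < L := by nlinarith [mul_nonneg hΔ0 hk0]
  have hγn : γ * n ≤ n / 192 := by
    have := mul_le_mul_of_nonneg_right hγs hn.le
    linarith
  have hκn : κ₀ * n ≤ γ * n := mul_le_mul_of_nonneg_right hκγ hn.le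
  have hκn0 : 0 < κ₀ * n := mul_pos hκ0 hn
  have hκκn : 2 * (κ₀ * n) ≤ κ * n := by
    have := mul_le_mul_of_nonneg_right hκκ hn.le
    linarith
  -- minimal X
  obtain ⟨X, hXm, hXmin⟩ := Finset.exists_min_image
    (X₀.powerset.filter fun X => Fintype.card V ≤ 2 * X.card ∧
      ∀ u ∈ X₀ \ X, 2 * γ * n ≤ ((B₀ ∩ adjN D true u).card : ℝ)) Finset.card
    ⟨X₀, by
      refine mem_filter.2 ⟨by simp, half, ?_⟩
      intro u hu; simp at hu⟩
  obtain ⟨hXX₀, hXhalf, hXrem⟩ := mem_filter.1 hXm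
  rw [mem_powerset] at hXX₀
  -- bounds on cardinalities
  have hX₀c : (X₀.card : ℝ) ≤ (1 / 2 + κ₀) * n := by
    have h1 : X₀.card + C₀.card ≤ Fintype.card V := by
      rw [← card_union_of_disjoint CX.symm]
      exact card_le_univ _
    have h2 : (X₀.card : ℝ) + (C₀.card : ℝ) ≤ n := by rw [hndef]; exact_mod_cast h1
    have := nb.cardC
    linarith
  have hXhalf' : n ≤ 2 * (X.card : ℝ) := by
    rw [hndef]; exact_mod_cast hXhalf
  have hR : ((X₀ \ X).card : ℝ) ≤ κ₀ * n := by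
    have h1 : ((X₀ \ X).card : ℝ) + (X.card : ℝ) = (X₀.card : ℝ) := by
      exact_mod_cast card_sdiff_add_card_eq_card hXX₀
    linarith
  set B := B₀ \ (X₀ \ X) with hB
  have hBX : B ⊆ X := by
    intro b hb
    rw [hB, mem_sdiff, mem_sdiff] at hb
    by_contra h
    exact hb.2 ⟨BX hb.1, h⟩
  have hBc : (1 / 2 - 2 * κ₀) * n ≤ (B.card : ℝ) := by
    have h1 : (B₀.card : ℝ) ≤ (B.card : ℝ) + ((X₀ \ X).card : ℝ) := by
      have h2 : B₀.card ≤ B.card + (X₀ \ X).card := by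
        have h3 : B₀ ⊆ B ∪ (X₀ \ X) := by
          intro b hb
          by_cases h : b ∈ X₀ \ X
          · exact mem_union_right _ h
          · exact mem_union_left _ (mem_sdiff.2 ⟨hb, h⟩)
        exact (card_le_card h3).trans (card_union_le _ _)
      exact_mod_cast h2
    have := nb.cardB
    linarith
  have hXc : (X.card : ℝ) ≤ (1 / 2 + κ₀) * n := by
    have : (X.card : ℝ) ≤ (X₀.card : ℝ) := by exact_mod_cast card_le_card hXX₀
    linarith
  have hnb : NearBip D B C₀ κ := by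
    refine ⟨?_, ?_, ?_, ?_, ?_⟩
    · exact nb.disj.mono_left sdiff_subset
    · linarith
    · have := nb.cardC
      linarith
    · intro s b hb
      have := nb.missB s b (mem_sdiff.1 hb).1
      linarith
    · intro s c hc
      have h1 := nb.missC s c hc
      have h2 : ((B \ adjN D s c).card : ℝ) ≤ ((B₀ \ adjN D s c).card : ℝ) := by
        exact_mod_cast card_le_card (sdiff_subset_sdiff sdiff_subset le_rfl)
      linarith
  have hCX : Disjoint C₀ X := CX.mono_right hXX₀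
  have hout1 : ∀ u ∈ X, γ * n ≤ ((C₀ ∩ adjN D true u).card : ℝ) := by
    intro u hu
    have := out1 u (hXX₀ hu)
    linarith
  have hout0 : ∀ u, u ∉ X → γ * n ≤ ((B ∩ adjN D true u).card : ℝ) := by
    intro u hu
    have h1 := hs_inter_sub B₀ (adjN D true u) (X₀ \ X)
    rw [← hB] at h1
    by_cases hu0 : u ∈ X₀
    · have := hXrem u (mem_sdiff.2 ⟨hu0, hu⟩)
      linarith
    · have := out0 u hu0
      linarith
  -- degrees
  have hdegX : ∀ y : V, L + ((X.card : ℝ) - n / 2) ≤ ((X ∩ adjN D false y).card : ℝ) := by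
    intro y
    have h1 := hs_split (adjN D false y) X
    have h2 : X.card ≤ Fintype.card V := card_le_univ _
    have h3 : ((adjN D false y).card : ℝ) ≤ ((X ∩ adjN D false y).card : ℝ) + (n - (X.card : ℝ)) := by
      rw [hndef, ← Nat.cast_sub h2]
      exact_mod_cast h1
    have h4 := sd.deg false y
    linarith
  have hdegX' : ∀ y : V, L - ((X.card : ℝ) - n / 2) ≤ ((Xᶜ ∩ adjN D false y).card : ℝ) := by
    intro y
    have h1 := hs_split (adjN D false y) Xᶜ
    have h2 : X.card ≤ Fintype.card V := card_le_univ _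
    have h3 : ((adjN D false y).card : ℝ) ≤ ((Xᶜ ∩ adjN D false y).card : ℝ) + (X.card : ℝ) := by
      rw [card_compl, Nat.sub_sub_self h2] at h1
      exact_mod_cast h1
    have h4 := sd.deg false y
    linarith
  have hind : ∀ u : V, γ * n ≤ ((C₀ ∩ adjN D false u).card : ℝ) ∨
      γ * n ≤ ((B ∩ adjN D false u).card : ℝ) := by
    intro u
    by_contra hcon
    push Not at hcon
    obtain ⟨hc1, hc2⟩ := hcon
    have h1 := hs_split (adjN D false u) (C₀ ∪ B)
    have h2 : (C₀ ∪ B).card ≤ Fintype.card V := card_le_univ _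
    have h3 : ((adjN D false u).card : ℝ) ≤
        (((C₀ ∪ B) ∩ adjN D false u).card : ℝ) + (n - ((C₀ ∪ B).card : ℝ)) := by
      rw [hndef, ← Nat.cast_sub h2]
      exact_mod_cast h1
    have h4 : (((C₀ ∪ B) ∩ adjN D false u).card : ℝ) ≤
        ((C₀ ∩ adjN D false u).card : ℝ) + ((B ∩ adjN D false u).card : ℝ) := by
      rw [union_inter_distrib_right]
      exact_mod_cast card_union_le _ _
    have h5 : ((C₀ ∪ B).card : ℝ) = (C₀.card : ℝ) + (B.card : ℝ) := by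
      have : Disjoint C₀ B := (hnb.disj).symm
      rw [card_union_of_disjoint this]
      push_cast; ring
    have h6 := sd.deg false u
    have h7 := nb.cardC
    linarith
  -- small out-degree
  have hmin : Fintype.card V + 2 ≤ 2 * X.card → ∀ u ∈ X,
      ((B ∩ adjN D true u).card : ℝ) ≤ 2 * γ * n := by
    intro h u hu
    by_contra hcon
    push Not at hcon
    have h1 : ((B ∩ adjN D true u).card : ℝ) ≤ ((B₀ ∩ adjN D true u).card : ℝ) := by
      exact_mod_cast card_le_card (inter_subset_inter_right sdiff_subset)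
    have h2 : X.erase u ∈ X₀.powerset.filter fun X => Fintype.card V ≤ 2 * X.card ∧
        ∀ u ∈ X₀ \ X, 2 * γ * n ≤ ((B₀ ∩ adjN D true u).card : ℝ) := by
      refine mem_filter.2 ⟨mem_powerset.2 ((erase_subset _ _).trans hXX₀), ?_, ?_⟩
      · rw [card_erase_of_mem hu]; omega
      · intro w hw
        rw [mem_sdiff, mem_erase] at hw
        by_cases hwu : w = u
        · subst hwu; linarith
        · exact hXrem w (mem_sdiff.2 ⟨hw.1, fun h => hw.2 ⟨hwu, h⟩⟩)
    have h3 := hXmin _ h2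
    rw [card_erase_of_mem hu] at h3
    have : 0 < X.card := card_pos.2 ⟨u, hu⟩
    omega
  have hB3 : (1 / 3 : ℝ) * n ≤ (B.card : ℝ) := by linarith
  have hC3 : (1 / 3 : ℝ) * n ≤ (C₀.card : ℝ) := by
    have := nb.cardC
    linarith
  have hLΔ : 48 * ((Δ : ℝ) + 2) ≤ L := by nlinarith [mul_nonneg hΔ0 hk0]
  have hLk : 96 * (k : ℝ) ≤ L := by nlinarith [mul_nonneg hΔ0 hk0]
  -- the first family of stars
  have hS : ∃ (S : Finset V) (lv : V → Fin (Δ + 1) → V), S ⊆ X ∧ Stars D true (Δ + 1) S B lv ∧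
      2 * ((X.card : ℝ) - n / 2 + k) ≤ (S.card : ℝ) := by
    by_cases hcase : Fintype.card V + 2 ≤ 2 * X.card
    · obtain ⟨S, lv, h1, h2, h3⟩ := stars (Δ + 1) (1 / 3) (by norm_num) D sd.irr true X B
        (L + ((X.card : ℝ) - n / 2)) (2 * γ) (by positivity) hB3
        (by push_cast; linarith)
        (fun y _ => by simpa using hdegX y) (hmin hcase) hn0
      refine ⟨S, lv, h1, h2, ?_⟩
      have hS0 : (0 : ℝ) ≤ (S.card : ℝ) := Nat.cast_nonneg _
      rcases h3 with h3 | h3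
      · push_cast at h3
        have h4 : 4 * ((Δ : ℝ) + 1 + 1) * (2 * γ) * (S.card : ℝ) ≤ 1 / 12 * (S.card : ℝ) := by
          apply mul_le_mul_of_nonneg_right _ hS0
          linarith
        linarith
      · push_cast at h3
        have h4 : (X.card : ℝ) - n / 2 ≤ κ₀ * n := by linarith
        have h5 : 24 * ((Δ : ℝ) + 2) * (κ₀ * n) ≤ n := by
          calc 24 * ((Δ : ℝ) + 2) * (κ₀ * n) = (24 * ((Δ : ℝ) + 2) * κ₀) * n := by ring
            _ ≤ 1 * n := mul_le_mul_of_nonneg_right hκΔ hn.le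
            _ = n := one_mul n
        have h6 : 24 * ((Δ : ℝ) + 2) * ((X.card : ℝ) - n / 2 + k) ≤ 2 * n := by
          have h7 : 24 * ((Δ : ℝ) + 2) * ((X.card : ℝ) - n / 2) ≤ 24 * ((Δ : ℝ) + 2) * (κ₀ * n) :=
            mul_le_mul_of_nonneg_left h4 (by positivity)
          linarith
        have h8 : 2 * n ≤ 12 * ((Δ : ℝ) + 2) * (S.card : ℝ) := by linarith
        have h9 : 12 * ((Δ : ℝ) + 2) * (2 * ((X.card : ℝ) - n / 2 + k)) ≤
            12 * ((Δ : ℝ) + 2) * (S.card : ℝ) := by linarith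
        exact le_of_mul_le_mul_left h9 (by positivity)
    · push Not at hcase
      have hcase' : 2 * (X.card : ℝ) ≤ n + 1 := by
        have : 2 * X.card ≤ Fintype.card V + 1 := by omega
        rw [hndef]; exact_mod_cast this
      obtain ⟨S, lv, h1, h2, h3⟩ := stars (Δ + 1) (1 / 3) (by norm_num) D sd.irr true X B
        (L + ((X.card : ℝ) - n / 2)) 1 (by norm_num) hB3
        (by push_cast; linarith)
        (fun y _ => by simpa using hdegX y)
        (fun u _ => by rw [one_mul]; exact_mod_cast card_le_univ _) hn0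
      refine ⟨S, lv, h1, h2, ?_⟩
      have hS0 : (0 : ℝ) ≤ (S.card : ℝ) := Nat.cast_nonneg _
      rcases h3 with h3 | h3
      · push_cast at h3
        have h4 : 12 * ((Δ : ℝ) + 2) * (4 * ((k : ℝ) + 1)) ≤ 12 * ((Δ : ℝ) + 2) * (S.card : ℝ) := by
          nlinarith
        have h5 := le_of_mul_le_mul_left h4 (by positivity)
        linarith
      · push_cast at h3
        have h8 : 2 * n ≤ 12 * ((Δ : ℝ) + 2) * (S.card : ℝ) := by linarith
        have h9 : 12 * ((Δ : ℝ) + 2) * (4 * (k : ℝ)) ≤ 12 * ((Δ : ℝ) + 2) * (S.card : ℝ) := by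
          linarith
        have h10 := le_of_mul_le_mul_left h9 (by positivity)
        have h6 : 2 * ((X.card : ℝ) - n / 2) ≤ 2 * (κ₀ * n) := by linarith
        have h5 : 24 * ((Δ : ℝ) + 2) * (κ₀ * n) ≤ n := by
          calc 24 * ((Δ : ℝ) + 2) * (κ₀ * n) = (24 * ((Δ : ℝ) + 2) * κ₀) * n := by ring
            _ ≤ 1 * n := mul_le_mul_of_nonneg_right hκΔ hn.le
            _ = n := one_mul n
        have h7 : 12 * ((Δ : ℝ) + 2) * (2 * ((X.card : ℝ) - n / 2 + k)) ≤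
            12 * ((Δ : ℝ) + 2) * (S.card : ℝ) := by
          have h11 : 12 * ((Δ : ℝ) + 2) * (2 * ((X.card : ℝ) - n / 2)) ≤
              12 * ((Δ : ℝ) + 2) * (2 * (κ₀ * n)) :=
            mul_le_mul_of_nonneg_left h6 (by positivity)
          linarith
        exact le_of_mul_le_mul_left h7 (by positivity)
  obtain ⟨S₁, lv, hS₁X, hS₁st, hS₁c⟩ := hS
  have hhalf : ∃ (τ : Bool) (S : Finset V), S ⊆ S₁ ∧ S₁.card ≤ 2 * S.card ∧
      ∀ u ∈ S, γ * n ≤ (((if τ = true then C₀ else B) ∩ adjN D false u).card : ℝ) := by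
    set St := S₁.filter fun u => γ * n ≤ ((C₀ ∩ adjN D false u).card : ℝ) with hSt
    set Sf := S₁.filter fun u => γ * n ≤ ((B ∩ adjN D false u).card : ℝ) with hSf
    have h1 : S₁ ⊆ St ∪ Sf := by
      intro u hu
      rcases hind u with h | h
      · exact mem_union_left _ (mem_filter.2 ⟨hu, h⟩)
      · exact mem_union_right _ (mem_filter.2 ⟨hu, h⟩)
    have h2 : S₁.card ≤ St.card + Sf.card := (card_le_card h1).trans (card_union_le _ _)
    by_cases h : Sf.card ≤ St.card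
    · refine ⟨true, St, filter_subset _ _, by omega, ?_⟩
      intro u hu
      simpa using (mem_filter.1 hu).2
    · refine ⟨false, Sf, filter_subset _ _, by omega, ?_⟩
      intro u hu
      simpa using (mem_filter.1 hu).2
  obtain ⟨τ, S, hSS₁, hSc, hSin⟩ := hhalf
  -- the second family of stars
  have hS' : ∃ (S' : Finset V) (lv' : V → Fin (Δ + 1) → V), S' ⊆ Xᶜ ∧
      Stars D true (Δ + 1) S' C₀ lv' ∧
      (2 * X.card ≤ Fintype.card V + 4 * k → k ≤ S'.card) := by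
    by_cases hcase : 2 * X.card ≤ Fintype.card V + 4 * k
    · have hcase' : 2 * (X.card : ℝ) ≤ n + 4 * k := by
        rw [hndef]; exact_mod_cast hcase
      obtain ⟨S', lv', h1, h2, h3⟩ := stars (Δ + 1) (1 / 3) (by norm_num) D sd.irr true Xᶜ C₀
        (L - ((X.card : ℝ) - n / 2)) 1 (by norm_num) hC3
        (by push_cast; linarith)
        (fun y _ => by simpa using hdegX' y)
        (fun u _ => by rw [one_mul]; exact_mod_cast card_le_univ _) hn0
      refine ⟨S', lv', h1, h2, fun _ => ?_⟩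
      have hS0 : (0 : ℝ) ≤ (S'.card : ℝ) := Nat.cast_nonneg _
      have hgoal : (k : ℝ) ≤ (S'.card : ℝ) := by
        rcases h3 with h3 | h3
        · push_cast at h3
          have h4 : 12 * ((Δ : ℝ) + 2) * (k : ℝ) ≤ 12 * ((Δ : ℝ) + 2) * (S'.card : ℝ) := by
            nlinarith [mul_nonneg hΔ0 hk0]
          exact le_of_mul_le_mul_left h4 (by positivity)
        · push_cast at h3
          have h9 : 12 * ((Δ : ℝ) + 2) * (k : ℝ) ≤ 12 * ((Δ : ℝ) + 2) * (S'.card : ℝ) := by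
            linarith
          exact le_of_mul_le_mul_left h9 (by positivity)
      exact_mod_cast hgoal
    · refine ⟨∅, fun v _ => v, by simp, ⟨?_, ?_⟩, fun h => absurd h hcase⟩
      · intro u hu; simp at hu
      · intro u hu; simp at hu
  obtain ⟨S', lv', hS'X, hS'st, hS'c⟩ := hS'
  refine ⟨B, C₀, X, τ, S, S', lv, lv', ?_⟩
  refine ⟨hnb, hBX, hCX, hout1, hout0, hXhalf, ?_, hSS₁.trans hS₁X, hSin, ?_, ?_, ?_, hS'st, hS'c⟩
  · have : (2 * X.card : ℝ) ≤ (1 + 2 * κ₀) * n := by linarith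
    linarith
  · refine ⟨?_, ?_⟩
    · intro u hu j
      obtain ⟨h1, h2, h3⟩ := hS₁st.adj u (hSS₁ hu) j
      exact ⟨h1, h2, fun h => h3 (hSS₁ h)⟩
    · intro u hu u' hu' j j' h
      exact hS₁st.inj u (hSS₁ hu) u' (hSS₁ hu') j j' h
  · have h1 : (S₁.card : ℝ) ≤ 2 * (S.card : ℝ) := by exact_mod_cast hSc
    have h2 : 2 * (X.card : ℝ) + 2 * (k : ℝ) ≤ n + 2 * (S.card : ℝ) := by linarith
    rw [hndef] at h2
    exact_mod_cast h2
  · rw [disjoint_left]
    intro u hu hu'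
    exact (mem_compl.1 (hS'X hu)) hu'

theorem hs_pre {V : Type} [Fintype V] (D : V → V → Prop) (B₀ C₀ : Finset V) (κ₀ L : ℝ)
    (hκ0 : 0 < κ₀) (hκ : κ₀ ≤ 1 / 192) (hL : 0 ≤ L) (nb : NearBip D B₀ C₀ κ₀)
    (sd : SemiDeg D L) : ∃ X₀ : Finset V, B₀ ⊆ X₀ ∧ Disjoint C₀ X₀ ∧
      (∀ u ∈ X₀, (Fintype.card V : ℝ) / 5 ≤ ((C₀ ∩ adjN D true u).card : ℝ)) ∧
      (∀ u, u ∉ X₀ → (Fintype.card V : ℝ) / 5 ≤ ((B₀ ∩ adjN D true u).card : ℝ)) := by
  have hn : (0 : ℝ) ≤ (Fintype.card V : ℝ) := Nat.cast_nonneg _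
  refine ⟨B₀ ∪ (univ.filter fun e => e ∉ C₀ ∧
    (Fintype.card V : ℝ) / 5 ≤ ((C₀ ∩ adjN D true e).card : ℝ)), subset_union_left, ?_, ?_, ?_⟩
  · rw [disjoint_union_right]
    refine ⟨nb.disj.symm, ?_⟩
    rw [disjoint_left]
    intro u hu hu'
    exact (mem_filter.1 hu').2.1 hu
  · intro u hu
    rcases mem_union.1 hu with h | h
    · have h1 := nb.missB true u h
      have h2 := hs_sdiff C₀ (adjN D true u)
      have h3 := nb.cardC
      nlinarith
    · exact (mem_filter.1 h).2.2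
  · intro u hu
    rw [mem_union, not_or, mem_filter, not_and] at hu
    by_cases hC : u ∈ C₀
    · have h1 := nb.missC true u hC
      have h2 := hs_sdiff B₀ (adjN D true u)
      have h3 := nb.cardB
      nlinarith
    · have h1 : ((C₀ ∩ adjN D true u).card : ℝ) < (Fintype.card V : ℝ) / 5 := by
        by_contra h
        push Not at h
        exact hu.2 (mem_univ _) ⟨hC, h⟩
      have h2 := hs_split (adjN D true u) (C₀ ∪ B₀)
      have h2' : (C₀ ∪ B₀).card ≤ Fintype.card V := card_le_univ _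
      have h3 : ((adjN D true u).card : ℝ) ≤
          (((C₀ ∪ B₀) ∩ adjN D true u).card : ℝ) +
            ((Fintype.card V : ℝ) - ((C₀ ∪ B₀).card : ℝ)) := by
        rw [← Nat.cast_sub h2']
        exact_mod_cast h2
      have h4 : (((C₀ ∪ B₀) ∩ adjN D true u).card : ℝ) ≤
          ((C₀ ∩ adjN D true u).card : ℝ) + ((B₀ ∩ adjN D true u).card : ℝ) := by
        rw [union_inter_distrib_right]
        exact_mod_cast card_union_le _ _
      have h5 : ((C₀ ∪ B₀).card : ℝ) = (C₀.card : ℝ) + (B₀.card : ℝ) := by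
        rw [card_union_of_disjoint nb.disj.symm]
        push_cast; ring
      have h6 := sd.deg true u
      have h7 := nb.cardC
      have h8 := nb.cardB
      nlinarith

theorem hs_log (K : ℕ) (n : ℕ) (hn : 3 ≤ n) :
    ((K * (Nat.log 2 n + 1) : ℕ) : ℝ) ≤ 3 * K * Real.log n := by
  have h1 : (1 : ℝ) ≤ Real.log n := by
    rw [Real.le_log_iff_exp_le (by positivity)]
    have : (3 : ℝ) ≤ n := by exact_mod_cast hn
    have := Real.exp_one_lt_d9
    linarith
  have h2 : ((Nat.log 2 n : ℕ) : ℝ) ≤ 2 * Real.log n := by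
    have h3 : (2 : ℝ) ^ (Nat.log 2 n) ≤ n := by exact_mod_cast Nat.pow_log_le_self 2 (by omega)
    have h4 : ((Nat.log 2 n : ℕ) : ℝ) * Real.log 2 ≤ Real.log n := by
      rw [← Real.log_pow]
      exact Real.log_le_log (by positivity) h3
    have h5 := Real.log_two_gt_d9
    have h6 : (0 : ℝ) ≤ ((Nat.log 2 n : ℕ) : ℝ) := Nat.cast_nonneg _
    nlinarith
  push_cast
  have hK : (0 : ℝ) ≤ (K : ℝ) := Nat.cast_nonneg K
  nlinarith

theorem hs_large (A : ℝ) : ∃ N : ℕ, 3 ≤ N ∧ ∀ n : ℕ, N ≤ n → A * Real.log n ≤ n := by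
  have h := Real.isLittleO_log_id_atTop.bound (c := 1 / (|A| + 1)) (by positivity)
  rw [Filter.eventually_atTop] at h
  obtain ⟨M, hM⟩ := h
  refine ⟨max 3 (Nat.ceil M), le_max_left _ _, ?_⟩
  intro n hn
  have h1 : M ≤ (n : ℝ) := by
    have := Nat.le_ceil M
    have h2 : (Nat.ceil M : ℝ) ≤ n := by exact_mod_cast (le_max_right _ _).trans hn
    linarith
  have h3 := hM n h1
  have hn3 : (3 : ℝ) ≤ n := by exact_mod_cast (le_max_left _ _).trans hn
  have h4 : 0 ≤ Real.log (n : ℝ) := Real.log_nonneg (by linarith)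
  rw [Real.norm_of_nonneg h4, id, Real.norm_of_nonneg (by linarith)] at h3
  have h5 : (|A| + 1) * Real.log n ≤ n := by
    rw [div_mul_eq_mul_div, one_mul, le_div_iff₀ (by positivity)] at h3
    linarith
  have h6 : A * Real.log n ≤ |A| * Real.log n :=
    mul_le_mul_of_nonneg_right (le_abs_self A) h4
  linarith

theorem hostS (Δ K : ℕ) : ∃ γ : ℝ, 0 < γ ∧ ∀ κ : ℝ, 0 < κ → ∃ (κ₀ c : ℝ) (N : ℕ), 0 < κ₀ ∧
    ∀ (V : Type) [Fintype V], N ≤ Fintype.card V → ∀ (D : V → V → Prop) (B₀ C₀ : Finset V),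
    NearBip D B₀ C₀ κ₀ → SemiDeg D (c * Real.log (Fintype.card V)) →
    ∃ (B C X : Finset V) (τ : Bool) (S S' : Finset V) (lv lv' : V → Fin (Δ + 1) → V),
      HostS D Δ B C X τ S S' lv lv' γ κ (K * (Nat.log 2 (Fintype.card V) + 1)) := by
  have hΔ0 : (0 : ℝ) ≤ (Δ : ℝ) := Nat.cast_nonneg Δ
  have hK0 : (0 : ℝ) ≤ (K : ℝ) := Nat.cast_nonneg K
  refine ⟨1 / (96 * ((Δ : ℝ) + 2)), by positivity, ?_⟩
  intro κ hκ
  obtain ⟨N, hN3, hN⟩ := hs_large (24 * ((Δ : ℝ) + 2) * (3 * K))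
  refine ⟨min (1 / (96 * ((Δ : ℝ) + 2))) (κ / 2), 48 * ((Δ : ℝ) + 2) * (3 * K + 1), N,
    by positivity, ?_⟩
  intro V _ hV D B₀ C₀ nb sd
  set γ : ℝ := 1 / (96 * ((Δ : ℝ) + 2)) with hγ
  have hγ0 : 0 < γ := by rw [hγ]; positivity
  have hγ1 : 96 * ((Δ : ℝ) + 2) * γ = 1 := by
    rw [hγ]; field_simp
  set κ₀ := min γ (κ / 2) with hκ₀
  have hκ0 : 0 < κ₀ := by rw [hκ₀]; positivity
  have hκγ : κ₀ ≤ γ := min_le_left _ _
  have hκκ : 2 * κ₀ ≤ κ := by
    have := min_le_right γ (κ / 2)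
    linarith
  have hγs : γ ≤ 1 / 192 := by nlinarith
  have h3 : 3 ≤ Fintype.card V := hN3.trans hV
  have hlog1 : (1 : ℝ) ≤ Real.log (Fintype.card V) := by
    rw [Real.le_log_iff_exp_le (by positivity)]
    have : (3 : ℝ) ≤ Fintype.card V := by exact_mod_cast h3
    have := Real.exp_one_lt_d9
    linarith
  have hk1 := hs_log K (Fintype.card V) h3
  have hk2 := hN (Fintype.card V) hV
  set k := K * (Nat.log 2 (Fintype.card V) + 1) with hkdef
  set L := 48 * ((Δ : ℝ) + 2) * (3 * K + 1) * Real.log (Fintype.card V) with hLdef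
  have hL : 48 * ((Δ : ℝ) + 2) * ((k : ℝ) + 1) ≤ L := by
    rw [hLdef, mul_assoc (48 * ((Δ : ℝ) + 2))]
    apply mul_le_mul_of_nonneg_left _ (by positivity)
    nlinarith
  have hk : 24 * ((Δ : ℝ) + 2) * (k : ℝ) ≤ (Fintype.card V : ℝ) := by
    refine le_trans ?_ hk2
    rw [mul_assoc (24 * ((Δ : ℝ) + 2)) (3 * (K : ℝ))]
    exact mul_le_mul_of_nonneg_left hk1 (by positivity)
  have hκΔ : 24 * ((Δ : ℝ) + 2) * κ₀ ≤ 1 := by
    have : 24 * ((Δ : ℝ) + 2) * κ₀ ≤ 24 * ((Δ : ℝ) + 2) * γ :=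
      mul_le_mul_of_nonneg_left hκγ (by positivity)
    nlinarith [mul_nonneg hΔ0 hγ0.le]
  have hL0 : 0 ≤ L := by rw [hLdef]; positivity
  have hn0 : 0 < Fintype.card V := by omega
  obtain ⟨X₀, hBX, hCX, hout1, hout0⟩ := hs_pre D B₀ C₀ κ₀ L hκ0 (hκγ.trans hγs) hL0 nb sd
  by_cases hcase : Fintype.card V ≤ 2 * X₀.card
  · exact hs_core Δ γ κ κ₀ L k D B₀ C₀ X₀ hn0 hγ0 hγ1.le hκ0 hκγ hκκ hκΔ hL hk nb sd hBX hCX
      hout1 hout0 hcase
  · have nb' : NearBip D C₀ B₀ κ₀ := ⟨nb.disj.symm, nb.cardC, nb.cardB, nb.missC, nb.missB⟩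
    refine hs_core Δ γ κ κ₀ L k D C₀ B₀ X₀ᶜ hn0 hγ0 hγ1.le hκ0 hκγ hκκ hκΔ hL hk nb' sd ?_ ?_
      ?_ ?_ ?_
    · intro c hc
      rw [mem_compl]
      exact disjoint_left.1 hCX hc
    · rw [disjoint_left]
      intro b hb hb'
      exact (mem_compl.1 hb') (hBX hb)
    · intro u hu
      exact hout0 u (mem_compl.1 hu)
    · intro u hu
      exact hout1 u (by simpa using hu)
    · rw [card_compl]
      have : X₀.card ≤ Fintype.card V := card_le_univ _
      omega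

end

end OT
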